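import Pool.Agent.SHA.Stmts

set_option autoImplicit false

namespace Pool.Agent.SHA.H30

theorem gub : GUBStmt := by
  intro s a k k' x y e e' hs hk hk' he he' h1 h2
  have ra : (1 : ℝ) ≤ a := by
    have : 1 ≤ a := by omega
    exact_mod_cast this
  have rk : (k : ℝ) ≤ a - 1 := by
    have : k + 1 ≤ a := hk
    have h : ((k : ℝ) + 1) ≤ a := by exact_mod_cast this
    linarith
  have rk' : (k' : ℝ) ≤ a - 1 := by
    have : k' + 1 ≤ a := hk'
    have h : ((k' : ℝ) + 1) ≤ a := by exact_mod_cast this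
    linarith
  have k0 : (0 : ℝ) ≤ k := Nat.cast_nonneg k
  have k0' : (0 : ℝ) ≤ k' := Nat.cast_nonneg k'
  have e0 : (0 : ℝ) ≤ e := Nat.cast_nonneg e
  have e0' : (0 : ℝ) ≤ e' := Nat.cast_nonneg e'
  have re : (e : ℝ) ≤ a := by exact_mod_cast he
  have re' : (e' : ℝ) ≤ a := by exact_mod_cast he'
  have r1 : (e : ℝ) + k * x + a * y ≤ a * s := by exact_mod_cast h1
  have r2 : (e' : ℝ) + k' * y + a * x ≤ a * s := by exact_mod_cast h2
  have ha0 : (0 : ℝ) < a := by linarith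
  obtain ⟨D, hD⟩ : ∃ D : ℝ, D = (a : ℝ) ^ 2 - k * k' := ⟨_, rfl⟩
  have d1 : (a : ℝ) - k' ≤ D := by
    have p1 : 0 ≤ ((a : ℝ) - 1 - k) * k' := mul_nonneg (by linarith) k0'
    have p2 : 0 ≤ ((a : ℝ) - 1) * (a - k') := mul_nonneg (by linarith) (by linarith)
    rw [hD]; nlinarith
  have d2 : (a : ℝ) - k ≤ D := by
    have p1 : 0 ≤ ((a : ℝ) - 1 - k') * k := mul_nonneg (by linarith) k0
    have p2 : 0 ≤ ((a : ℝ) - 1) * (a - k) := mul_nonneg (by linarith) (by linarith)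
    rw [hD]; nlinarith
  have hD0 : 0 < D := by linarith
  have hfr : fr ((k : ℝ) / a) ((k' : ℝ) / a) = a * (2 * a - k - k') / D := by
    unfold fr
    have hne : (a : ℝ) ≠ 0 := ha0.ne'
    have e1 : 2 - (k : ℝ) / a - k' / a = (2 * a - k - k') / a := by field_simp
    have e2 : 1 - (k : ℝ) / a * (k' / a) = D / (a * a) := by
      rw [hD]; field_simp
    rw [e1, e2]
    field_simp
  have m1 := mul_le_mul_of_nonneg_left r1 (by linarith : (0 : ℝ) ≤ a - k')
  have m2 := mul_le_mul_of_nonneg_left r2 (by linarith : (0 : ℝ) ≤ a - k)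
  have m3 := mul_le_mul_of_nonneg_left re (by linarith : (0 : ℝ) ≤ D - (a - k'))
  have m4 := mul_le_mul_of_nonneg_left re' (by linarith : (0 : ℝ) ≤ D - (a - k))
  have key : D * ((x : ℝ) + y + e + e') ≤ ((s : ℝ) - 1) * (a * (2 * a - k - k')) + 2 * a * D := by
    have e3 : D * ((x : ℝ) + y) = ((a : ℝ) - k') * (k * x + a * y) + (a - k) * (k' * y + a * x) := by
      rw [hD]; ring
    nlinarith
  have e4 : ((s : ℝ) - 1) * fr ((k : ℝ) / a) ((k' : ℝ) / a) + 2 * a =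
      (((s : ℝ) - 1) * (a * (2 * a - k - k')) + 2 * a * D) / D := by
    rw [hfr]
    field_simp
  rw [e4, le_div_iff₀ hD0]
  linarith

end Pool.Agent.SHA.H30
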